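import Pool.Agent.Helper86.TC8.Stmts
import Pool.Agent.Helper86.TC8.Base

/-!
Large girth cubic graphs are 4-total-colourable: the fresh segments are determined by the tree
(row FRV).
-/

set_option autoImplicit false

namespace Pool.Agent.Helper52.TC8

open Pool.Agent.Helper86.TC8

variable {V : Type}

theorem mtch_root {G : CG V} {s P : V → Bool} {d : ℕ} {a : L} {x : V} {t : Tr d}
    (h : mtch G s P d a x t) : s x = (root d t).s ∧ P x = (root d t).P := by
  cases d with
  | zero => exact h
  | succ d => exact ⟨h.1, h.2.1⟩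

theorem sd_bw (C : Ctx V) (p : V → Bool) (x : V) (h : C.Z (C.G.bw x) = false) :
    sd C p (C.G.bw x) = (sd C p x ^^ ps C p x) := by
  simp only [ps, h]
  cases sd C p x <;> simp

theorem sd_bnu (C : Ctx V) (p : V → Bool) (x : V) (h : C.Z (C.G.bw x) = true) :
    sd C p (C.G.bw (C.G.nu x)) = (sd C p x ^^ ps C p x) := by
  simp only [ps, h]
  cases sd C p x <;> simp

theorem node_val (C : Ctx V) (p : V → Bool) {D0 : ℕ} {z : V}
    (hZ : ∀ w : List L, Red w → w ≠ [] → w.length ≤ D0 → C.Z (act C.G w z) = false)
    {d : ℕ} {c : L} {W : List L} {t : Tr d} (hW : Red (c :: W)) (hl : W.length + 2 ≤ D0)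
    (hm : mtch C.G (sd C p) (ps C p) d c (act C.G (c :: W) z) t) :
    ∀ e ∈ nodeF c W (root d t), sd C p (act C.G e.1 z) = e.2 := by
  obtain ⟨h1, h2⟩ := mtch_root hm
  intro e he
  cases c with
  | n => simp [nodeF] at he
  | b =>
    simp only [nodeF, List.mem_cons, List.not_mem_nil, or_false] at he
    subst he
    have hz : C.Z (C.G.bw (act C.G (L.b :: W) z)) = false :=
      hZ (L.b :: L.b :: W) ⟨by decide, hW⟩ (by simp) (by simp only [List.length_cons]; omega)
    have h3 := sd_bw C p _ hz
    rw [h1, h2] at h3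
    exact h3
  | f =>
    simp only [nodeF, List.mem_cons, List.not_mem_nil, or_false] at he
    subst he
    exact h1

theorem fresh_val (C : Ctx V) (p : V → Bool) {D0 : ℕ} {z : V}
    (hZ : ∀ w : List L, Red w → w ≠ [] → w.length ≤ D0 → C.Z (act C.G w z) = false) :
    ∀ (d : ℕ) (a : L) (W : List L) (t : Tr d), Red (a :: W) → W.length + d + 2 ≤ D0 →
    mtch C.G (sd C p) (ps C p) d a (act C.G (a :: W) z) t →
    ∀ e ∈ fresh d a (a :: W) t, sd C p (act C.G e.1 z) = e.2 := by
  intro d
  induction d with
  | zero =>
    intro a W t _ _ _ e he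
    simp [fresh] at he
  | succ d ih =>
    intro a W t hW hl hm e he
    obtain ⟨-, -, m1, m2⟩ := hm
    have hk1 : Red (k1 a :: a :: W) := ⟨k1_ne_inv a, hW⟩
    have hk2 : Red (k2 a :: a :: W) := ⟨k2_ne_inv a, hW⟩
    have hl' : (a :: W).length + d + 2 ≤ D0 := by simp only [List.length_cons]; omega
    have hl2 : (a :: W).length + 2 ≤ D0 := by omega
    simp only [fresh, List.mem_append] at he
    rcases he with (he | he) | (he | he)
    · exact node_val C p hZ hk1 hl2 m1 e he
    · exact ih (k1 a) (a :: W) t.2.1 hk1 hl' m1 e he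
    · exact node_val C p hZ hk2 hl2 m2 e he
    · exact ih (k2 a) (a :: W) t.2.2 hk2 hl' m2 e he

theorem st_FRV : ST_REL → ST_FRV := by
  intro _ V C R D0 D1 H z a t p hz hm e he
  have hD := H.D0R
  have hZ : ∀ w : List L, Red w → w ≠ [] → w.length ≤ D0 → C.Z (act C.G w z) = false :=
    fun w h1 h2 h3 => H.z1 z w hz h1 h2 h3
  obtain ⟨h1, h2⟩ := mtch_root hm
  rw [freshAll, List.mem_append] at he
  rcases he with he | he
  · cases a with
    | n =>
      simp only [rootF, List.mem_cons, List.not_mem_nil, or_false] at he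
      rcases he with rfl | rfl
      · exact h1
      · have hz' : C.Z (C.G.bw (act1 C.G L.n z)) = false :=
          hZ [L.b, L.n] ⟨by decide, trivial⟩ (by simp) (by simp; omega)
        have h3 := sd_bw C p _ hz'
        rw [h1, h2] at h3
        exact h3
    | b =>
      simp only [rootF, List.mem_cons, List.not_mem_nil, or_false] at he
      rcases he with rfl | rfl
      · exact h1
      · have hz' : C.Z (C.G.bw (act1 C.G L.b z)) = false :=
          hZ [L.b, L.b] ⟨by decide, trivial⟩ (by simp) (by simp; omega)
        have h3 := sd_bw C p _ hz'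
        rw [h1, h2] at h3
        exact h3
    | f =>
      simp only [rootF, List.mem_cons, List.not_mem_nil, or_false] at he
      rcases he with rfl | rfl
      · exact h1
      · have hz' : C.Z (C.G.bw (act1 C.G L.f z)) = true := by
          have : C.G.bw (act1 C.G L.f z) = z := C.G.bw_fw z
          rw [this]; exact hz
        have h3 := sd_bnu C p _ hz'
        rw [h1, h2] at h3
        exact h3
  · exact fresh_val C p hZ R a [] t (red_single a) (by simp; omega) hm e he

end Pool.Agent.Helper52.TC8
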