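import Pool.Agent.Helper86.TC8.Stmts
import Pool.Agent.Helper86.TC8.Base

/-!
Large girth cubic graphs are 4-total-colourable: combinatorics of the fresh words (row FRW).
-/

set_option autoImplicit false

namespace Pool.Agent.Helper52.TC8

open Pool.Agent.Helper86.TC8

/-- the shape of the fresh words below the vertex with word `W` -/
def Good (W : List L) (n : ℕ) (l : List (List L × Bool)) : Prop :=
  (l.map Prod.fst).Nodup ∧ ∀ e ∈ l, Red e.1 ∧ e.1.length ≤ n ∧
    ∃ U : List L, e.1 = L.b :: L.b :: (U ++ W) ∨ e.1 = L.f :: (U ++ W)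

theorem half {c : L} {W : List L} {n : ℕ} (st : St) {l : List (List L × Bool)}
    (hW : Red (c :: W)) (hn : W.length + 2 ≤ n) (h : Good (c :: W) n l) :
    ((nodeF c W st ++ l).map Prod.fst).Nodup ∧ ∀ e ∈ nodeF c W st ++ l,
      Red e.1 ∧ e.1.length ≤ n ∧ (c :: W) <:+ e.1 ∧
        ∃ U : List L, e.1 = L.b :: L.b :: (U ++ W) ∨ e.1 = L.f :: (U ++ W) := by
  obtain ⟨h1, h2⟩ := h
  have h3 : ∀ e ∈ l, Red e.1 ∧ e.1.length ≤ n ∧ (c :: W) <:+ e.1 ∧
      ∃ U : List L, e.1 = L.b :: L.b :: (U ++ W) ∨ e.1 = L.f :: (U ++ W) := by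
    intro e he
    obtain ⟨ha, hb, U, hU⟩ := h2 e he
    refine ⟨ha, hb, ?_, U ++ [c], ?_⟩
    · rcases hU with hU | hU
      · exact ⟨L.b :: L.b :: U, by simp [hU]⟩
      · exact ⟨L.f :: U, by simp [hU]⟩
    · rcases hU with hU | hU
      · left; simp [hU]
      · right; simp [hU]
  cases c with
  | n =>
    simp only [nodeF, List.nil_append]
    exact ⟨h1, h3⟩
  | b =>
    simp only [nodeF, List.cons_append, List.nil_append, List.map_cons, List.nodup_cons,
      List.mem_cons, forall_eq_or_imp]
    refine ⟨⟨?_, h1⟩, ⟨⟨by decide, hW⟩, by simp only [List.length_cons]; omega, ⟨[L.b], rfl⟩, [], Or.inl rfl⟩, h3⟩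
    intro hm
    rw [List.mem_map] at hm
    obtain ⟨e, he, hee⟩ := hm
    obtain ⟨-, -, U, hU | hU⟩ := h2 e he
    · have h4 := congrArg List.length (hee.symm.trans hU)
      simp at h4
      omega
    · have h4 := hee.symm.trans hU
      simp at h4
  | f =>
    simp only [nodeF, List.cons_append, List.nil_append, List.map_cons, List.nodup_cons,
      List.mem_cons, forall_eq_or_imp]
    refine ⟨⟨?_, h1⟩, ⟨hW, by simp; omega, ⟨[], rfl⟩, [], Or.inr rfl⟩, h3⟩
    intro hm
    rw [List.mem_map] at hm
    obtain ⟨e, he, hee⟩ := hm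
    obtain ⟨-, -, U, hU | hU⟩ := h2 e he
    · have h4 := hee.symm.trans hU
      simp at h4
    · have h4 := congrArg List.length (hee.symm.trans hU)
      simp only [List.length_cons, List.length_append] at h4
      omega

theorem fresh_good : ∀ (d : ℕ) (a : L) (W : List L) (t : Tr d), Red (a :: W) →
    Good (a :: W) (W.length + d + 2) (fresh d a (a :: W) t) := by
  intro d
  induction d with
  | zero =>
    intro a W t _
    exact ⟨by simp [fresh], by simp [fresh]⟩
  | succ d ih =>
    intro a W t hW
    have hk1 : Red (k1 a :: a :: W) := ⟨k1_ne_inv a, hW⟩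
    have hk2 : Red (k2 a :: a :: W) := ⟨k2_ne_inv a, hW⟩
    have e1 : (a :: W).length + d + 2 = W.length + (d + 1) + 2 := by simp; omega
    have g1 := ih (k1 a) (a :: W) t.2.1 hk1
    have g2 := ih (k2 a) (a :: W) t.2.2 hk2
    rw [e1] at g1 g2
    obtain ⟨n1, m1⟩ := half (root d t.2.1) hk1 (by simp) g1
    obtain ⟨n2, m2⟩ := half (root d t.2.2) hk2 (by simp) g2
    refine ⟨?_, ?_⟩
    · simp only [fresh]
      rw [List.map_append, List.nodup_append]
      refine ⟨n1, n2, ?_⟩
      intro w hw w' hw' hww
      rw [List.mem_map] at hw hw'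
      obtain ⟨e, he, rfl⟩ := hw
      obtain ⟨e', he', rfl⟩ := hw'
      have s1 := (m1 e he).2.2.1
      have s2 := (m2 e' he').2.2.1
      rw [← hww] at s2
      have s3 := List.suffix_of_suffix_length_le s1 s2 (by simp)
      have s4 := s3.eq_of_length (by simp)
      simp only [List.cons.injEq, and_true] at s4
      exact k1_ne_k2 a s4
    · intro e he
      simp only [fresh] at he
      rw [List.mem_append] at he
      rcases he with he | he
      · obtain ⟨q1, q2, -, q3⟩ := m1 e he
        exact ⟨q1, q2, q3⟩
      · obtain ⟨q1, q2, -, q3⟩ := m2 e he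
        exact ⟨q1, q2, q3⟩

theorem can_bb (W : List L) : can (L.b :: L.b :: W) = L.b :: L.b :: W := by simp [can]

theorem can_f (W : List L) : can (L.f :: W) = L.f :: W := by simp [can]

theorem st_FRW : ST_FRW := by
  intro R a t
  obtain ⟨h1, h2⟩ := fresh_good R a [] t (red_single a)
  have hc : ∀ e ∈ fresh R a [a] t, can e.1 = e.1 := by
    intro e he
    obtain ⟨-, -, U, hU | hU⟩ := h2 e he
    · rw [hU, can_bb]
    · rw [hU, can_f]
  have hmap : (fresh R a [a] t).map (fun e => can e.1) = (fresh R a [a] t).map Prod.fst :=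
    List.map_congr_left hc
  have hlen : ∀ e ∈ fresh R a [a] t, 2 ≤ e.1.length ∧ (e.1.head? = some L.b → 3 ≤ e.1.length) := by
    intro e he
    obtain ⟨-, -, U, hU | hU⟩ := h2 e he
    · rw [hU]; simp
    · rw [hU]; simp
  have hne : ∀ w : List L, w.length ≤ 1 → w ∉ (fresh R a [a] t).map Prod.fst := by
    intro w hw hm
    rw [List.mem_map] at hm
    obtain ⟨e, he, rfl⟩ := hm
    have := (hlen e he).1
    omega
  have hbb : [L.b, L.b] ∉ (fresh R a [a] t).map Prod.fst := by
    intro hm
    rw [List.mem_map] at hm
    obtain ⟨e, he, hee⟩ := hm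
    have := (hlen e he).2 (by rw [hee]; rfl)
    rw [hee] at this
    simp at this
  have hrest : ∀ e ∈ fresh R a [a] t, Red e.1 ∧ e.1.length ≤ R + 3 ∧ (can e.1).length ≤ R + 3 := by
    intro e he
    obtain ⟨q1, q2, -⟩ := h2 e he
    rw [hc e he]
    simp at q2
    exact ⟨q1, by omega, by omega⟩
  refine ⟨?_, ?_⟩
  · rw [freshAll, List.map_append, hmap]
    cases a with
    | n =>
      simp only [rootF, List.map_cons, List.map_nil, List.cons_append, List.nil_append,
        List.nodup_cons, List.mem_cons, not_or]
      refine ⟨⟨?_, ?_⟩, ?_, h1⟩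
      · simp [can]
      · exact hne _ (by simp [can])
      · exact hne _ (by simp [can])
    | b =>
      simp only [rootF, List.map_cons, List.map_nil, List.cons_append, List.nil_append,
        List.nodup_cons, List.mem_cons, not_or]
      refine ⟨⟨?_, ?_⟩, ?_, h1⟩
      · simp [can]
      · exact hne _ (by simp [can])
      · simp only [reduceCtorEq, if_false, can_bb]
        exact hbb
    | f =>
      simp only [rootF, List.map_cons, List.map_nil, List.cons_append, List.nil_append,
        List.nodup_cons, List.mem_cons, not_or]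
      refine ⟨⟨?_, ?_⟩, ?_, h1⟩
      · simp [can]
      · exact hne _ (by simp [can])
      · exact hne _ (by simp [can])
  · intro e he
    rw [freshAll, List.mem_append] at he
    rcases he with he | he
    · cases a with
      | n =>
        simp only [rootF, List.mem_cons, List.not_mem_nil, or_false] at he
        rcases he with rfl | rfl
        · exact ⟨red_single _, by simp, by simp [can]⟩
        · refine ⟨by simp [Red, L.inv], by simp, by simp [can]⟩
      | b =>
        simp only [rootF, List.mem_cons, List.not_mem_nil, or_false] at he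
        rcases he with rfl | rfl
        · exact ⟨red_single _, by simp, by simp [can]⟩
        · refine ⟨by simp [Red, L.inv], by simp, by simp [can]⟩
      | f =>
        simp only [rootF, List.mem_cons, List.not_mem_nil, or_false] at he
        rcases he with rfl | rfl
        · exact ⟨red_single _, by simp, by simp [can]⟩
        · refine ⟨by simp [Red, L.inv], by simp, by simp [can]⟩
    · exact hrest e he

end Pool.Agent.Helper52.TC8
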